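import Mathlib
import Pool.Agent.V11166.Eight.Core

set_option autoImplicit false

open Finset RealInnerProductSpace

namespace Pool.Agent.Results.MP_a0a64f_co.ThreePlanesSeparate

/-- Euclidean three-space -/
abbrev E3 := EuclideanSpace ℝ (Fin 3)

/-- an affine plane `{x | ⟪n, x⟫ = c}` of `ℝ³`, `n ≠ 0` -/
structure Plane where
  n : E3
  c : ℝ
  hn : n ≠ 0

/-- the points of a plane -/
def Plane.carrier (H : Plane) : Set E3 := {x | ⟪H.n, x⟫ = H.c}

/-- no four points of `P` lie on a common plane -/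
def GeneralPosition (P : Finset E3) : Prop :=
  ∀ H : Plane, ∀ Q ⊆ P, Q.card = 4 → ¬ ((Q : Set E3) ⊆ H.carrier)

/-- the compartments: connected components of the complement of the union of three planes -/
def compartments (H : Fin 3 → Plane) : Set (Set E3) :=
  {C | ∃ x ∈ (⋃ i, (H i).carrier)ᶜ, C = connectedComponentIn (⋃ i, (H i).carrier)ᶜ x}

/-- the three planes avoid `P`, they have exactly eight compartments and each compartment contains
exactly one point of `P` -/
def Separate (H : Fin 3 → Plane) (P : Finset E3) : Prop :=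
  (∀ i, ∀ p ∈ P, p ∉ (H i).carrier) ∧ (compartments H).ncard = 8 ∧
    ∀ C ∈ compartments H, ∃! p, p ∈ P ∧ p ∈ C

/-! ### Sign cells and compartments -/

/-- open sides of a plane -/
def side (H : Plane) (s : Bool) : Set E3 :=
  if s = true then {x | H.c < ⟪H.n, x⟫} else {x | ⟪H.n, x⟫ < H.c}

/-- cell of a sign pattern -/
def cell (H : Fin 3 → Plane) (s : Fin 3 → Bool) : Set E3 := ⋂ i, side (H i) (s i)

lemma side_open (H : Plane) (s : Bool) : IsOpen (side H s) := by
  unfold side
  split_ifs
  · exact isOpen_lt continuous_const (by fun_prop)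
  · exact isOpen_lt (by fun_prop) continuous_const

lemma side_convex (H : Plane) (s : Bool) : Convex ℝ (side H s) := by
  have hlin : IsLinearMap ℝ (fun x : E3 => ⟪H.n, x⟫) := by
    constructor
    · intro x y; exact inner_add_right _ _ _
    · intro r x; simp [inner_smul_right]
  unfold side
  split_ifs
  · exact convex_halfSpace_gt hlin _
  · exact convex_halfSpace_lt hlin _

lemma cell_open (H : Fin 3 → Plane) (s : Fin 3 → Bool) : IsOpen (cell H s) :=
  isOpen_iInter_of_finite (fun _ => side_open _ _)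

lemma cell_convex (H : Fin 3 → Plane) (s : Fin 3 → Bool) : Convex ℝ (cell H s) :=
  convex_iInter (fun _ => side_convex _ _)

lemma side_disj (H : Plane) {s t : Bool} {x : E3} (h1 : x ∈ side H s) (h2 : x ∈ side H t) :
    s = t := by
  unfold side at h1 h2
  cases s <;> cases t <;> simp at h1 h2 ⊢ <;> linarith

lemma cell_disj (H : Fin 3 → Plane) {s t : Fin 3 → Bool} {x : E3} (h1 : x ∈ cell H s)
    (h2 : x ∈ cell H t) : s = t := by
  unfold cell at h1 h2
  rw [Set.mem_iInter] at h1 h2
  funext i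
  exact side_disj (H i) (h1 i) (h2 i)

lemma cell_sub (H : Fin 3 → Plane) (s : Fin 3 → Bool) : cell H s ⊆ (⋃ i, (H i).carrier)ᶜ := by
  intro x hx
  rw [Set.mem_compl_iff, Set.mem_iUnion]
  rintro ⟨i, hi⟩
  unfold cell at hx
  rw [Set.mem_iInter] at hx
  have h1 := hx i
  have h2 : ⟪(H i).n, x⟫ = (H i).c := hi
  unfold side at h1
  split_ifs at h1
  · have : (H i).c < ⟪(H i).n, x⟫ := h1
    linarith
  · have : ⟪(H i).n, x⟫ < (H i).c := h1
    linarith

lemma cell_cover (H : Fin 3 → Plane) {x : E3} (hx : x ∈ (⋃ i, (H i).carrier)ᶜ) :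
    ∃ s, x ∈ cell H s := by
  classical
  refine ⟨fun i => decide ((H i).c < ⟪(H i).n, x⟫), ?_⟩
  unfold cell
  rw [Set.mem_iInter]
  intro i
  unfold side
  by_cases h : (H i).c < ⟪(H i).n, x⟫
  · simp [h]
  · have h2 : ⟪(H i).n, x⟫ ≠ (H i).c := by
      intro h3
      apply hx
      rw [Set.mem_iUnion]
      exact ⟨i, h3⟩
    have h3 : ⟪(H i).n, x⟫ < (H i).c := lt_of_le_of_ne (not_lt.mp h) h2
    simp [h, h3]

lemma component_eq (H : Fin 3 → Plane) {s : Fin 3 → Bool} {x : E3} (hx : x ∈ cell H s) :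
    connectedComponentIn (⋃ i, (H i).carrier)ᶜ x = cell H s := by
  apply Set.Subset.antisymm
  · have hpre : IsPreconnected (connectedComponentIn (⋃ i, (H i).carrier)ᶜ x) :=
      isPreconnected_connectedComponentIn
    have hsub : connectedComponentIn (⋃ i, (H i).carrier)ᶜ x ⊆
        cell H s ∪ ⋃ t ∈ {t | t ≠ s}, cell H t := by
      intro y hy
      have hy2 := connectedComponentIn_subset _ _ hy
      obtain ⟨t, ht⟩ := cell_cover H hy2
      by_cases hts : t = s
      · left; rw [← hts]; exact ht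
      · right
        exact Set.mem_biUnion (show t ∈ {t | t ≠ s} from hts) ht
    apply hpre.subset_left_of_subset_union (cell_open H s)
      (isOpen_biUnion (fun t _ => cell_open H t)) _ hsub
    · exact ⟨x, mem_connectedComponentIn (cell_sub H s hx), hx⟩
    · rw [Set.disjoint_iff]
      rintro y ⟨hy1, hy2⟩
      rw [Set.mem_iUnion₂] at hy2
      obtain ⟨t, ht, hyt⟩ := hy2
      exact ht (cell_disj H hyt hy1)
  · exact (cell_convex H s).isPreconnected.subset_connectedComponentIn hx (cell_sub H s)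

lemma separate_of_cells (H : Fin 3 → Plane) (P : Finset E3)
    (hne : ∀ i, ∀ p ∈ P, p ∉ (H i).carrier) (h : ∀ s, ∃! p, p ∈ P ∧ p ∈ cell H s) :
    Separate H P := by
  have hcomp : compartments H = Set.range (cell H) := by
    ext C
    constructor
    · rintro ⟨x, hx, rfl⟩
      obtain ⟨s, hs⟩ := cell_cover H hx
      exact ⟨s, (component_eq H hs).symm⟩
    · rintro ⟨s, rfl⟩
      obtain ⟨p, ⟨_, hp⟩, _⟩ := h s
      exact ⟨p, cell_sub H s hp, (component_eq H hp).symm⟩
  refine ⟨hne, ?_, ?_⟩
  · rw [hcomp]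
    have hinj : Function.Injective (cell H) := by
      intro s t hst
      obtain ⟨p, ⟨_, hp⟩, _⟩ := h s
      have hp' : p ∈ cell H t := by rw [← hst]; exact hp
      exact cell_disj H hp hp'
    rw [← Set.image_univ, Set.ncard_image_of_injective _ hinj, Set.ncard_univ]
    simp
  · rw [hcomp]
    rintro C ⟨s, rfl⟩
    exact h s

/-! ### The function space of a point set in general position -/

/-- restrictions of affine functions to `P` -/
def affSpace (P : Finset E3) : Submodule ℝ (P → ℝ) where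
  carrier := {w | ∃ (n : E3) (c : ℝ), ∀ p : P, w p = ⟪n, (p : E3)⟫ - c}
  add_mem' := by
    rintro w w' ⟨n, c, h⟩ ⟨n', c', h'⟩
    refine ⟨n + n', c + c', fun p => ?_⟩
    rw [Pi.add_apply, h, h', inner_add_left]
    ring
  zero_mem' := ⟨0, 0, fun p => by simp⟩
  smul_mem' := by
    rintro r w ⟨n, c, h⟩
    refine ⟨r • n, r * c, fun p => ?_⟩
    rw [Pi.smul_apply, h, inner_smul_left, smul_eq_mul]
    simp
    ring

lemma gp_zero {P : Finset E3} (hgp : GeneralPosition P) (Q : Finset P) (hQ : Q.card = 4)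
    (n : E3) (c : ℝ) (h : ∀ q ∈ Q, ⟪n, (q : E3)⟫ - c = 0) : n = 0 ∧ c = 0 := by
  have hn : n = 0 := by
    by_contra hn
    apply hgp ⟨n, c, hn⟩ (Q.map (Function.Embedding.subtype _))
    · intro x hx
      rw [Finset.mem_map] at hx
      obtain ⟨q, _, rfl⟩ := hx
      exact q.2
    · rw [Finset.card_map]; exact hQ
    · intro x hx
      have hx' : x ∈ Q.map (Function.Embedding.subtype _) := hx
      rw [Finset.mem_map] at hx'
      obtain ⟨q, hq, rfl⟩ := hx'
      have := h q hq
      show ⟪n, (q : E3)⟫ = c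
      linarith
  refine ⟨hn, ?_⟩
  have hne : Q.Nonempty := by
    rw [← Finset.card_pos]; omega
  obtain ⟨q, hq⟩ := hne
  have := h q hq
  rw [hn, inner_zero_left] at this
  linarith

lemma uniform {P : Finset E3} (hgp : GeneralPosition P) :
    V11166.Eight.Uniform4 (affSpace P) := by
  constructor
  · intro Q hQ v
    let T : (E3 × ℝ) →ₗ[ℝ] (Q → ℝ) :=
      { toFun := fun x q => ⟪x.1, ((q : P) : E3)⟫ - x.2
        map_add' := by
          intro x y
          funext q
          simp only [Prod.fst_add, Prod.snd_add, Pi.add_apply, inner_add_left]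
          ring
        map_smul' := by
          intro r x
          funext q
          simp only [Prod.smul_fst, Prod.smul_snd, Pi.smul_apply, smul_eq_mul, inner_smul_left,
            RingHom.id_apply]
          simp
          ring }
    have hinj : Function.Injective T := by
      rw [injective_iff_map_eq_zero]
      rintro ⟨n, c⟩ hx
      have h1 : ∀ q ∈ Q, ⟪n, (q : E3)⟫ - c = 0 := by
        intro q hq
        exact congrFun hx ⟨q, hq⟩
      obtain ⟨h2, h3⟩ := gp_zero hgp Q hQ n c h1
      rw [h2, h3]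
      rfl
    have hfr : Module.finrank ℝ (E3 × ℝ) = Module.finrank ℝ (Q → ℝ) := by
      rw [Module.finrank_prod, Module.finrank_fintype_fun_eq_card, Fintype.card_coe, hQ]
      simp
    have hsurj := (LinearMap.injective_iff_surjective_of_finrank_eq_finrank hfr).mp hinj
    obtain ⟨⟨n, c⟩, hx⟩ := hsurj (fun q => v q)
    refine ⟨fun p => ⟪n, (p : E3)⟫ - c, ⟨n, c, fun p => rfl⟩, ?_⟩
    intro q hq
    exact congrFun hx ⟨q, hq⟩
  · intro Q hQ w hw h0
    obtain ⟨n, c, hw⟩ := hw
    obtain ⟨h2, h3⟩ := gp_zero hgp Q hQ n c (fun q hq => by rw [← hw q]; exact h0 q hq)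
    funext p
    rw [hw p, h2, h3]
    simp

lemma bool_noninj : ∀ v : Fin 4 → Bool, ¬ (∀ i j, v i = v j → i = j) := by decide

lemma exists_pat {α : Type*} [Fintype α] [DecidableEq α] (a : Fin 4 → α) (f g : α → ℝ)
    (h : ∀ i j, V11166.Eight.pat a f i = V11166.Eight.pat a f j →
      V11166.Eight.pat a g i = V11166.Eight.pat a g j → i = j) (s t : Bool) :
    ∃ i, V11166.Eight.pat a f i = s ∧ V11166.Eight.pat a g i = t := by
  have hinj : Function.Injective
      (fun i => (V11166.Eight.pat a f i, V11166.Eight.pat a g i)) := by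
    intro i j hij
    simp only [Prod.mk.injEq] at hij
    exact h i j hij.1 hij.2
  have hbij := (Fintype.bijective_iff_injective_and_card _).mpr ⟨hinj, by simp⟩
  obtain ⟨i, hi⟩ := hbij.2 (s, t)
  simp only [Prod.mk.injEq] at hi
  exact ⟨i, hi⟩

lemma mem_side_iff (H : Plane) (s : Bool) (x : E3) (hx : ⟪H.n, x⟫ - H.c ≠ 0) :
    x ∈ side H s ↔ decide (0 < ⟪H.n, x⟫ - H.c) = s := by
  unfold side
  cases s
  · simp only [Bool.false_eq_true, if_false, decide_eq_false_iff_not, not_lt]
    constructor
    · intro h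
      have : ⟪H.n, x⟫ < H.c := h
      linarith
    · intro h
      show ⟪H.n, x⟫ < H.c
      have := lt_of_le_of_ne h hx
      linarith
  · simp only [if_true, decide_eq_true_eq]
    constructor
    · intro h
      have : H.c < ⟪H.n, x⟫ := h
      linarith
    · intro h
      show H.c < ⟪H.n, x⟫
      linarith

/-- **Q1 of MP_a0a64f_co (answer: yes).** For every set `P` of eight points in general position in
`ℝ³` there are three planes that separate `P`. -/
theorem result : ∀ P : Finset E3, P.card = 8 → GeneralPosition P →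
    ∃ H : Fin 3 → Plane, Separate H P := by
  classical
  intro P hP hgp
  -- a linear functional that is injective on `P`
  obtain ⟨f, hf⟩ := Module.exists_dual_forall_apply_ne_zero (K := ℝ)
    (ι := {pq : P × P // pq.1 ≠ pq.2}) (fun pq => ((pq.1.1 : E3) - (pq.1.2 : E3)))
    (fun pq => sub_ne_zero.mpr (fun h => pq.2 (Subtype.ext h)))
  have hfinj : ∀ p q : P, f (p : E3) = f (q : E3) → p = q := by
    intro p q h
    by_contra hne
    have := hf ⟨(p, q), hne⟩
    simp only [map_sub] at this
    exact this (sub_eq_zero.mpr h)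
  set S : Finset ℝ := (univ : Finset P).image (fun p : P => f (p : E3)) with hS
  have hSc : S.card = 8 := by
    rw [hS, Finset.card_image_of_injective _ (fun p q h => hfinj p q h)]
    simpa using hP
  let e : Fin 8 ↪o ℝ := S.orderEmbOfFin hSc
  have he : ∀ k, ∃ p : P, f (p : E3) = e k := by
    intro k
    have h1 : e k ∈ S := Finset.orderEmbOfFin_mem S hSc k
    rw [hS, Finset.mem_image] at h1
    obtain ⟨p, _, hp⟩ := h1
    exact ⟨p, hp⟩
  choose pt hpt using he
  have hptinj : Function.Injective pt := by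
    intro k l h
    have : e k = e l := by rw [← hpt, ← hpt, h]
    exact e.injective this
  have hptsurj : Function.Surjective pt := by
    have := (Fintype.bijective_iff_injective_and_card pt).mpr ⟨hptinj, by simp [hP]⟩
    exact this.2
  let c : ℝ := (e 3 + e 4) / 2
  have he34 : e 3 < e 4 := e.strictMono (by decide)
  let a : Fin 4 → P := fun i => pt (Fin.castAdd 4 i)
  let b : Fin 4 → P := fun i => pt (Fin.natAdd 4 i)
  have ha : Function.Injective a := fun i j h => Fin.castAdd_injective 4 4 (hptinj h)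
  have hb : Function.Injective b := fun i j h => Fin.natAdd_injective 4 4 (hptinj h)
  have hab : ∀ i j, a i ≠ b j := by
    intro i j h
    have h1 := hptinj h
    have h2 := congrArg Fin.val h1
    simp at h2
    omega
  have hfa : ∀ i, f (a i : E3) < c := by
    intro i
    have h1 : f (a i : E3) = e (Fin.castAdd 4 i) := hpt _
    have h2 : e (Fin.castAdd 4 i) ≤ e 3 := by
      apply e.monotone
      rw [Fin.le_def]
      have := i.2
      simp
      omega
    rw [h1]
    show _ < (e 3 + e 4) / 2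
    linarith
  have hfb : ∀ i, c < f (b i : E3) := by
    intro i
    have h1 : f (b i : E3) = e (Fin.natAdd 4 i) := hpt _
    have h2 : e 4 ≤ e (Fin.natAdd 4 i) := by
      apply e.monotone
      rw [Fin.le_def]
      simp
    rw [h1]
    show (e 3 + e 4) / 2 < _
    linarith
  have hcover : ∀ p : P, (∃ i, p = a i) ∨ (∃ i, p = b i) := by
    intro p
    obtain ⟨k, rfl⟩ := hptsurj p
    by_cases hk : (k : ℕ) < 4
    · left
      refine ⟨⟨k, hk⟩, ?_⟩
      show pt k = pt _
      congr 1
    · right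
      refine ⟨⟨k - 4, by omega⟩, ?_⟩
      show pt k = pt _
      congr 1
      ext
      simp
      omega
  -- first plane
  let n₀ : E3 := (InnerProductSpace.toDual ℝ E3).symm (LinearMap.toContinuousLinearMap f)
  have hn₀ : ∀ x : E3, ⟪n₀, x⟫ = f x := by
    intro x
    show ⟪(InnerProductSpace.toDual ℝ E3).symm (LinearMap.toContinuousLinearMap f), x⟫ = f x
    rw [InnerProductSpace.toDual_symm_apply]
    rfl
  have hn₀0 : n₀ ≠ 0 := by
    intro h
    have h1 : ∀ x, f x = 0 := fun x => by rw [← hn₀ x, h, inner_zero_left]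
    have h2 := hfa 0
    have h3 := hfb 0
    rw [h1] at h2 h3
    linarith
  -- the other two planes
  obtain ⟨w₁, hw₁, w₂, hw₂, z₁, z₂, inja, injb⟩ := V11166.Eight.two_split (uniform hgp)
    (by simp [hP]) a b ha hb hab
  obtain ⟨n₁, c₁, hw₁⟩ := hw₁
  obtain ⟨n₂, c₂, hw₂⟩ := hw₂
  have hn₁0 : n₁ ≠ 0 := by
    intro h
    have h1 : ∀ i j, V11166.Eight.pat a w₁ i = V11166.Eight.pat a w₁ j := by
      intro i j
      unfold V11166.Eight.pat
      simp only [hw₁, h, inner_zero_left]
    exact bool_noninj _ (fun i j hij => inja i j (h1 i j) hij)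
  have hn₂0 : n₂ ≠ 0 := by
    intro h
    have h1 : ∀ i j, V11166.Eight.pat a w₂ i = V11166.Eight.pat a w₂ j := by
      intro i j
      unfold V11166.Eight.pat
      simp only [hw₂, h, inner_zero_left]
    exact bool_noninj _ (fun i j hij => inja i j hij (h1 i j))
  let H : Fin 3 → Plane := ![⟨n₀, c, hn₀0⟩, ⟨n₁, c₁, hn₁0⟩, ⟨n₂, c₂, hn₂0⟩]
  refine ⟨H, ?_⟩
  have nz : ∀ (i : Fin 3) (p : P), ⟪(H i).n, (p : E3)⟫ - (H i).c ≠ 0 := by
    intro i p
    fin_cases i
    · show ⟪n₀, (p : E3)⟫ - c ≠ 0
      rw [hn₀]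
      rcases hcover p with ⟨i, rfl⟩ | ⟨i, rfl⟩
      · have := hfa i; intro h; linarith
      · have := hfb i; intro h; linarith
    · show ⟪n₁, (p : E3)⟫ - c₁ ≠ 0
      rw [← hw₁]; exact z₁ p
    · show ⟪n₂, (p : E3)⟫ - c₂ ≠ 0
      rw [← hw₂]; exact z₂ p
  have hcell : ∀ (s : Fin 3 → Bool) (p : P), (p : E3) ∈ cell H s ↔
      decide (0 < f (p : E3) - c) = s 0 ∧ decide (0 < w₁ p) = s 1 ∧ decide (0 < w₂ p) = s 2 := by
    intro s p
    unfold cell
    rw [Set.mem_iInter]
    constructor
    · intro h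
      have h0 := (mem_side_iff _ _ _ (nz 0 p)).mp (h 0)
      have h1 := (mem_side_iff _ _ _ (nz 1 p)).mp (h 1)
      have h2 := (mem_side_iff _ _ _ (nz 2 p)).mp (h 2)
      refine ⟨?_, ?_, ?_⟩
      · rw [← h0, ← hn₀]; rfl
      · rw [← h1, hw₁]; rfl
      · rw [← h2, hw₂]; rfl
    · rintro ⟨h0, h1, h2⟩ i
      rw [mem_side_iff _ _ _ (nz i p)]
      fin_cases i
      · show decide (0 < ⟪n₀, (p : E3)⟫ - c) = s 0
        rw [hn₀]; exact h0
      · show decide (0 < ⟪n₁, (p : E3)⟫ - c₁) = s 1
        rw [← hw₁]; exact h1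
      · show decide (0 < ⟪n₂, (p : E3)⟫ - c₂) = s 2
        rw [← hw₂]; exact h2
  apply separate_of_cells
  · intro i p hp h
    exact nz i ⟨p, hp⟩ (sub_eq_zero.mpr h)
  · intro s
    have hda : ∀ i, decide (0 < f (a i : E3) - c) = false := by
      intro i; have := hfa i; simp; linarith
    have hdb : ∀ i, decide (0 < f (b i : E3) - c) = true := by
      intro i; have := hfb i; simp; linarith
    cases hs : s 0
    · obtain ⟨i, hi1, hi2⟩ := exists_pat a w₁ w₂ inja (s 1) (s 2)
      refine ⟨(a i : E3), ⟨(a i).2, ?_⟩, ?_⟩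
      · rw [hcell s (a i)]
        exact ⟨by rw [hda, hs], hi1, hi2⟩
      · rintro q ⟨hq, hqc⟩
        rw [hcell s ⟨q, hq⟩] at hqc
        obtain ⟨q0, q1, q2⟩ := hqc
        rcases hcover ⟨q, hq⟩ with ⟨j, hj⟩ | ⟨j, hj⟩
        · rw [hj] at q1 q2
          have : j = i := inja j i (by rw [hi1]; exact q1) (by rw [hi2]; exact q2)
          rw [← this]
          exact congrArg Subtype.val hj
        · rw [hj, hdb, hs] at q0
          exact absurd q0 (by decide)
    · obtain ⟨i, hi1, hi2⟩ := exists_pat b w₁ w₂ injb (s 1) (s 2)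
      refine ⟨(b i : E3), ⟨(b i).2, ?_⟩, ?_⟩
      · rw [hcell s (b i)]
        exact ⟨by rw [hdb, hs], hi1, hi2⟩
      · rintro q ⟨hq, hqc⟩
        rw [hcell s ⟨q, hq⟩] at hqc
        obtain ⟨q0, q1, q2⟩ := hqc
        rcases hcover ⟨q, hq⟩ with ⟨j, hj⟩ | ⟨j, hj⟩
        · rw [hj, hda, hs] at q0
          exact absurd q0 (by decide)
        · rw [hj] at q1 q2
          have : j = i := injb j i (by rw [hi1]; exact q1) (by rw [hi2]; exact q2)
          rw [← this]
          exact congrArg Subtype.val hj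

end Pool.Agent.Results.MP_a0a64f_co.ThreePlanesSeparate
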